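import Mathlib
import Pool.Agent.H.MP_fdf3ca_an.C

namespace Pool.Agent.H.MP_b0cea1_an

open Set Filter Topology Metric MeasureTheory

def H : Set ℂ := {z : ℂ | 0 < z.im}

theorem H_open : IsOpen H := isOpen_lt continuous_const Complex.continuous_im

def R (x y : ℝ) : Set ℂ := {z | |z.re - x| < 2 * y ∧ 0 < z.im ∧ z.im < 2 * y}

def Q (x y τ : ℝ) : Set ℂ := {z | x - y ≤ z.re ∧ z.re ≤ x + y ∧ τ * y ≤ z.im ∧ z.im ≤ y}

theorem R_meas (x y : ℝ) : MeasurableSet (R x y) := by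
  have h1 : IsOpen {z : ℂ | |z.re - x| < 2 * y} := isOpen_lt (by fun_prop) (by fun_prop)
  have h2 : IsOpen {z : ℂ | z.im < 2 * y} := isOpen_lt (by fun_prop) (by fun_prop)
  exact (h1.inter (H_open.inter h2)).measurableSet

theorem Q_conv (x y τ : ℝ) : Convex ℝ (Q x y τ) :=
  (convex_halfSpace_re_ge _).inter ((convex_halfSpace_re_le _).inter
    ((convex_halfSpace_im_ge _).inter (convex_halfSpace_im_le _)))

theorem det_eq (L : ℂ →L[ℝ] ℂ) : L.det = (L 1).re * (L Complex.I).im - (L Complex.I).re * (L 1).im := by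
  rw [ContinuousLinearMap.det, ← LinearMap.det_toMatrix Complex.basisOneI, Matrix.det_fin_two]
  simp [LinearMap.toMatrix_apply]

noncomputable def mu (f : ℂ → ℂ) : Measure ℂ :=
  volume.withDensity fun z => ENNReal.ofReal (‖deriv f z‖ ^ (2 : ℝ))

theorem mu_fin {f : ℂ → ℂ} (hf : DifferentiableOn ℂ f H) (hi : InjOn f H)
    (hm : MapsTo f H (ball 0 1)) : mu f H ≠ ⊤ := by
  have e := lintegral_abs_det_fderiv_eq_addHaar_image volume H_open.measurableSet (f := f)
    (f' := fun z => (ContinuousLinearMap.toSpanSingleton ℂ (deriv f z)).restrictScalars ℝ)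
    (fun z hz => ((hf.differentiableAt (H_open.mem_nhds hz)).hasDerivAt.hasFDerivAt.restrictScalars
      ℝ).hasFDerivWithinAt) hi
  rw [mu, withDensity_apply _ H_open.measurableSet]
  refine ne_top_of_le_ne_top (measure_ball_ne_top (μ := volume) (x := (0 : ℂ)) (r := 1)) ?_
  refine le_trans (le_of_eq ?_) (e.le.trans (measure_mono hm.image_subset))
  congr 1
  funext z
  rw [det_eq, Real.rpow_two, Complex.sq_norm, ← abs_of_nonneg (Complex.normSq_nonneg (deriv f z))]
  congr 2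
  simp [Complex.normSq_apply]

noncomputable def nu (f : ℂ → ℂ) (x y : ℝ) : ℝ := √(mu f (R x y)).toReal

theorem osc {f : ℂ → ℂ} (hf : DifferentiableOn ℂ f H) (hμ : mu f H ≠ ⊤) {x y τ : ℝ} (hy : 0 < y)
    (h0 : 0 < τ) (_h1 : τ ≤ 1) {a b : ℂ} (ha : a ∈ Q x y τ) (hb : b ∈ Q x y τ) :
    ‖f a - f b‖ ≤ 6 * Real.exp 1 / τ * nu f x y := by
  have hd : ∀ q ∈ Q x y τ, ‖deriv f q‖ ≤ 2 * Real.exp 1 / (τ * y) * nu f x y := by
    intro q hq
    have hδ : 0 < τ * y / 2 := by positivity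
    have hsub : closedBall q (τ * y / 2) ⊆ R x y := by
      intro z hz
      rw [mem_closedBall, dist_eq_norm] at hz
      have e1 := abs_le.1 ((Complex.abs_re_le_norm (z - q)).trans hz)
      have e2 := abs_le.1 ((Complex.abs_im_le_norm (z - q)).trans hz)
      simp only [Complex.sub_re, Complex.sub_im] at e1 e2
      obtain ⟨q1, q2, q3, q4⟩ := hq
      have : τ * y ≤ y := by nlinarith
      exact ⟨abs_lt.2 ⟨by linarith [e1.1], by linarith [e1.2]⟩, by linarith [e2.1],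
        by linarith [e2.2]⟩
    have hRH : R x y ⊆ H := fun z hz => hz.2.1
    have h2 := MP_fdf3ca_an.area (p := 2) two_pos hδ (f := deriv f) (c := q)
      ((hf.analyticOnNhd H_open).deriv.mono (hsub.trans hRH))
    have h3 : mu f (R x y) ≠ ⊤ := ne_top_of_le_ne_top hμ (measure_mono hRH)
    rw [← withDensity_apply _ measurableSet_ball] at h2
    have h4 := (ENNReal.ofReal_le_iff_le_toReal h3).1
      (h2.trans (measure_mono (ball_subset_closedBall.trans hsub)))
    rw [Real.rpow_two, Real.rpow_two] at h4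
    have he := Real.exp_pos 1
    rw [nu, div_mul_eq_mul_div, le_div_iff₀ (by positivity), mul_comm (2 * _), ← div_le_iff₀
      (by positivity)]
    refine Real.le_sqrt_of_sq_le (le_trans ?_ h4)
    have hπ := Real.pi_gt_three
    have : τ * y / 2 / 2 * (2 * Real.pi * (2 / Real.exp 1 ^ 2 * ‖deriv f q‖ ^ 2) * (τ * y / 2 / 2))
        = Real.pi * (‖deriv f q‖ * (τ * y) / (2 * Real.exp 1)) ^ 2 := by field_simp
    rw [this]
    nlinarith [sq_nonneg (‖deriv f q‖ * (τ * y) / (2 * Real.exp 1))]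
  have hQ : Q x y τ ⊆ H := fun q hq => lt_of_lt_of_le (by positivity) hq.2.2.1
  have := (Q_conv x y τ).norm_image_sub_le_of_norm_deriv_le
    (fun q hq => hf.differentiableAt (H_open.mem_nhds (hQ hq))) hd hb ha
  refine this.trans ?_
  have hab : ‖a - b‖ ≤ 3 * y := by
    refine (Complex.norm_le_abs_re_add_abs_im _).trans ?_
    obtain ⟨a1, a2, a3, a4⟩ := ha
    obtain ⟨b1, b2, b3, b4⟩ := hb
    have : 0 < τ * y := by positivity
    have e1 : |(a - b).re| ≤ 2 * y := by rw [Complex.sub_re, abs_le]; constructor <;> linarith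
    have e2 : |(a - b).im| ≤ y := by rw [Complex.sub_im, abs_le]; constructor <;> linarith
    linarith
  have hn : 0 ≤ nu f x y := Real.sqrt_nonneg _
  have he := Real.exp_pos 1
  refine (mul_le_mul_of_nonneg_left hab (by positivity)).trans (le_of_eq ?_)
  field_simp
  ring

noncomputable def L : ℕ → ℝ → ℝ → Finset ℂ
  | 0, x, y => {⟨x, y⟩}
  | k + 1, x, y => L k (x - y) (y / 4) ∪ L k (x + y) (y / 4)

theorem L_card (k : ℕ) : ∀ x y, (L k x y).card ≤ 2 ^ k := by
  induction k with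
  | zero => simp [L]
  | succ k ih =>
    intro x y
    have := ih (x - y) (y / 4)
    have := ih (x + y) (y / 4)
    have := Finset.card_union_le (L k (x - y) (y / 4)) (L k (x + y) (y / 4))
    rw [L]
    omega

theorem L_mem (k : ℕ) : ∀ x y, 0 ≤ y → ∀ w ∈ L k x y, w.im = y / 4 ^ k ∧ |w.re - x| ≤ 4 * y / 3 := by
  induction k with
  | zero =>
    intro x y hy w hw
    simp only [L, Finset.mem_singleton] at hw
    subst hw
    simp only [pow_zero, div_one, sub_self, abs_zero, true_and]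
    positivity
  | succ k ih =>
    intro x y hy w hw
    rcases Finset.mem_union.1 hw with h | h
    all_goals
      obtain ⟨h1, h2⟩ := ih _ _ (by positivity) w h
      rw [abs_le] at h2 ⊢
      exact ⟨by rw [h1]; ring, by linarith [h2.1], by linarith [h2.2]⟩

theorem L_far (k : ℕ) (y : ℝ) (hy : 0 ≤ y) (w : ℂ) (hw : w ∈ L (k + 1) 0 y) : 2 * y / 3 ≤ ‖w‖ := by
  refine le_trans ?_ (Complex.abs_re_le_norm w)
  rcases Finset.mem_union.1 hw with h | h
  all_goals
    have h2 := abs_le.1 (L_mem k _ _ (by positivity) w h).2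
    rw [le_abs]
  · right; linarith [h2.2]
  · left; linarith [h2.1]

theorem greedy {f : ℂ → ℂ} (hf : DifferentiableOn ℂ f H) (hμ : mu f H ≠ ⊤) (k : ℕ) :
    ∀ x y, 0 < y → ∃ w ∈ L k x y, ‖f ⟨x, y⟩ - f w‖ ≤ 96 * Real.exp 1 * nu f x y := by
  have he := Real.exp_pos 1
  induction k with
  | zero =>
    intro x y _
    have hn : 0 ≤ nu f x y := Real.sqrt_nonneg _
    exact ⟨⟨x, y⟩, by simp [L], by simp; positivity⟩
  | succ k ih =>
    intro x y hy
    have hn : 0 ≤ nu f x y := Real.sqrt_nonneg _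
    have h3 : mu f (R x y) ≠ ⊤ := ne_top_of_le_ne_top hμ (measure_mono fun z hz => hz.2.1)
    have hs : ∀ s, s = x - y ∨ s = x + y → R s (y / 4) ⊆ R x y := by
      rintro s hs z ⟨z1, z2, z3⟩
      rw [abs_lt] at z1
      refine ⟨abs_lt.2 ?_, z2, by linarith⟩
      rcases hs with rfl | rfl <;> constructor <;> linarith [z1.1, z1.2]
    have hdj : Disjoint (R (x - y) (y / 4)) (R (x + y) (y / 4)) := by
      rw [Set.disjoint_left]
      intro z h1 h2
      linarith [(abs_lt.1 h1.1).2, (abs_lt.1 h2.1).1]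
    have hu := measure_union (μ := mu f) hdj (R_meas _ _)
    have hle : (mu f (R (x - y) (y / 4))).toReal + (mu f (R (x + y) (y / 4))).toReal
        ≤ (mu f (R x y)).toReal := by
      rw [← ENNReal.toReal_add (ne_top_of_le_ne_top h3 (measure_mono (hs _ (Or.inl rfl))))
        (ne_top_of_le_ne_top h3 (measure_mono (hs _ (Or.inr rfl)))), ← hu]
      exact ENNReal.toReal_mono h3 (measure_mono (union_subset (hs _ (Or.inl rfl))
        (hs _ (Or.inr rfl))))
    obtain ⟨s, hs1, hs2⟩ : ∃ s, (s = x - y ∨ s = x + y) ∧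
        (mu f (R s (y / 4))).toReal ≤ (mu f (R x y)).toReal / 2 := by
      by_contra h
      push Not at h
      linarith [h _ (Or.inl rfl), h _ (Or.inr rfl)]
    have hnu : nu f s (y / 4) ≤ 3 / 4 * nu f x y := by
      unfold nu
      refine Real.sqrt_le_iff.2 ⟨by positivity, ?_⟩
      rw [mul_pow, Real.sq_sqrt ENNReal.toReal_nonneg]
      linarith [ENNReal.toReal_nonneg (a := mu f (R x y))]
    obtain ⟨w, hw, h1⟩ := ih s (y / 4) (by positivity)
    have h2 := osc hf hμ hy (by norm_num : (0 : ℝ) < 1 / 4) (by norm_num) (x := x) (a := ⟨x, y⟩)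
      (b := ⟨s, y / 4⟩) ⟨by simp; linarith, by simp; linarith, by simp only; linarith, le_rfl⟩
      ⟨by rcases hs1 with rfl | rfl <;> simp only <;> linarith,
        by rcases hs1 with rfl | rfl <;> simp only <;> linarith,
        by simp only; linarith, by simp only; linarith⟩
    refine ⟨w, ?_, (norm_sub_le_norm_sub_add_norm_sub _ (f ⟨s, y / 4⟩) _).trans ?_⟩
    · rcases hs1 with rfl | rfl
      · exact Finset.mem_union_left _ hw
      · exact Finset.mem_union_right _ hw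
    · nlinarith

def K : Set ℂ := ⋃ n : ℕ, (L (n + 1) 0 ((1 / 2) ^ n) : Set ℂ)

theorem K_sub : K ⊆ H := by
  intro w hw
  obtain ⟨n, hn⟩ := mem_iUnion.1 hw
  change 0 < w.im
  rw [(L_mem _ _ _ (by positivity) w hn).1]
  positivity

theorem forcing (f : ℂ → ℂ) (hf : DifferentiableOn ℂ f H) (hi : InjOn f H)
    (hm : MapsTo f H (ball 0 1)) (α : ℂ) (hK : Tendsto f (𝓝[K] 0) (𝓝 α)) (θ : ℝ) (h0 : 0 < θ)
    (h1 : θ < Real.pi / 2) :
    Tendsto f (𝓝[{z : ℂ | z ≠ 0 ∧ θ ≤ Complex.arg z ∧ Complex.arg z ≤ Real.pi - θ}] 0) (𝓝 α) := by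
  have hμ := mu_fin hf hi hm
  have hs : Tendsto (fun n : ℕ => (1 / 2 : ℝ) ^ n) atTop (𝓝 0) :=
    tendsto_pow_atTop_nhds_zero_of_lt_one (by norm_num) (by norm_num)
  have hnu : Tendsto (fun n : ℕ => nu f 0 ((1 / 2) ^ n)) atTop (𝓝 0) := by
    have h := tendsto_measure_iInter_atTop (μ := mu f) (s := fun n : ℕ => R 0 ((1 / 2) ^ n))
      (fun n => (R_meas _ _).nullMeasurableSet) (fun a b hab z hz => by
        have : (1 / 2 : ℝ) ^ b ≤ (1 / 2) ^ a := pow_le_pow_of_le_one (by norm_num) (by norm_num) hab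
        exact ⟨by linarith [hz.1], hz.2.1, by linarith [hz.2.2]⟩)
      ⟨0, ne_top_of_le_ne_top hμ (measure_mono fun z hz => hz.2.1)⟩
    have e : ⋂ n : ℕ, R 0 ((1 / 2) ^ n) = ∅ := by
      refine eq_empty_of_forall_notMem fun z hz => ?_
      have h2 := mem_iInter.1 hz
      obtain ⟨n, hn⟩ := (hs.eventually (gt_mem_nhds (half_pos (h2 0).2.1))).exists
      linarith [(h2 n).2.2]
    rw [e, measure_empty] at h
    have := ((ENNReal.tendsto_toReal ENNReal.zero_ne_top).comp h).sqrt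
    simpa [nu, Function.comp_def] using this
  choose w hw hw' using fun n : ℕ => greedy hf hμ (n + 1) 0 ((1 / 2) ^ n) (by positivity)
  have hw0 : Tendsto w atTop (𝓝[K] 0) := by
    refine tendsto_nhdsWithin_iff.2 ⟨?_, Eventually.of_forall fun n => mem_iUnion.2 ⟨n, hw n⟩⟩
    refine squeeze_zero_norm (a := fun n => 3 * (1 / 2) ^ n) (fun n => ?_)
      (by simpa using hs.const_mul 3)
    obtain ⟨e1, e2⟩ := L_mem _ _ _ (by positivity) _ (hw n)
    have p : (0 : ℝ) < (1 / 2) ^ n := by positivity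
    have e3 : (1 / 2 : ℝ) ^ n / 4 ^ (n + 1) ≤ (1 / 2) ^ n :=
      div_le_self p.le (one_le_pow₀ (by norm_num))
    refine (Complex.norm_le_abs_re_add_abs_im _).trans ?_
    rw [e1, abs_of_nonneg (by positivity : (0 : ℝ) ≤ (1 / 2) ^ n / 4 ^ (n + 1))]
    rw [sub_zero] at e2
    linarith
  have hc : Tendsto (fun n : ℕ => f ⟨0, (1 / 2) ^ n⟩) atTop (𝓝 α) := by
    have h2 : Tendsto (fun n : ℕ => f ⟨0, (1 / 2) ^ n⟩ - f (w n)) atTop (𝓝 0) :=
      squeeze_zero_norm hw' (by simpa using hnu.const_mul (96 * Real.exp 1))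
    simpa using h2.add (hK.comp hw0)
  have hσ : 0 < Real.sin θ := Real.sin_pos_of_pos_of_lt_pi h0 (by linarith)
  have hσ1 := Real.sin_le_one θ
  rw [Metric.tendsto_nhdsWithin_nhds]
  intro ε hε
  obtain ⟨N, hN⟩ := eventually_atTop.1 ((hc.eventually (ball_mem_nhds α (half_pos hε))).and
    ((by simpa using hnu.const_mul (6 * Real.exp 1 / (Real.sin θ / 2)) : Tendsto (fun n : ℕ =>
      6 * Real.exp 1 / (Real.sin θ / 2) * nu f 0 ((1 / 2) ^ n)) atTop (𝓝 0)).eventually
      (gt_mem_nhds (half_pos hε))))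
  refine ⟨(1 / 2) ^ N, by positivity, fun z hz hz' => ?_⟩
  rw [dist_zero_right] at hz'
  obtain ⟨n, n1, n2⟩ := exists_nat_pow_near_of_lt_one (norm_pos_iff.2 hz.1)
    (hz'.le.trans (pow_le_one₀ (by norm_num) (by norm_num))) (by norm_num : (0 : ℝ) < 1 / 2)
    (by norm_num)
  have hn : N ≤ n := by
    have := (pow_lt_pow_iff_right_of_lt_one₀ (by norm_num) (by norm_num)).1 (n1.trans hz')
    omega
  obtain ⟨a1, a2⟩ := hN n hn
  have p : (0 : ℝ) < (1 / 2) ^ n := by positivity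
  have hsin : Real.sin θ ≤ Real.sin z.arg := by
    rcases le_total z.arg (Real.pi / 2) with h | h
    · exact Real.sin_le_sin_of_le_of_le_pi_div_two (by linarith) h hz.2.1
    · rw [← Real.sin_pi_sub z.arg]
      exact Real.sin_le_sin_of_le_of_le_pi_div_two (by linarith) (by linarith) (by linarith [hz.2.2])
  have hre := abs_le.1 ((Complex.abs_re_le_norm z).trans n2)
  have him := abs_le.1 ((Complex.abs_im_le_norm z).trans n2)
  have h3 := osc hf hμ p (half_pos hσ) (by linarith) (x := 0) (a := z) (b := ⟨0, (1 / 2) ^ n⟩)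
    ⟨by linarith [hre.1], by linarith [hre.2], by
      rw [← Complex.norm_mul_sin_arg]
      rw [pow_succ] at n1
      nlinarith [mul_le_mul_of_nonneg_left hsin (norm_nonneg z)], him.2⟩
    ⟨by simp only; linarith, by simp only; linarith, by simp only; nlinarith, le_rfl⟩
  rw [dist_eq_norm] at a1
  rw [dist_eq_norm]
  linarith [norm_sub_le_norm_sub_add_norm_sub (f z) (f ⟨0, (1 / 2) ^ n⟩) α]

theorem near {l : ℝ} {z w : ℂ} (hz : 0 < z.im) (hw : 0 < w.im)
    (h : 2 * Real.arsinh (‖z - w‖ / (2 * √(z.im * w.im))) < l) :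
    ‖z - w‖ ≤ ((2 * Real.sinh (l / 2)) ^ 2 + 1) * w.im := by
  have h1 : ‖z - w‖ / (2 * √(z.im * w.im)) < Real.sinh (l / 2) := by
    rw [← Real.sinh_arsinh (‖z - w‖ / _)]
    exact Real.sinh_lt_sinh.2 (by linarith)
  rw [div_lt_iff₀ (by positivity)] at h1
  have h2 : ‖z - w‖ ^ 2 ≤ (2 * Real.sinh (l / 2)) ^ 2 * (z.im * w.im) := by
    rw [← Real.sq_sqrt (by positivity : 0 ≤ z.im * w.im), ← mul_pow]
    exact pow_le_pow_left₀ (norm_nonneg _) (by linarith) 2
  have h3 := (abs_le.1 (Complex.abs_im_le_norm (z - w))).2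
  rw [Complex.sub_im] at h3
  obtain ⟨A, hA⟩ : ∃ A, A = (2 * Real.sinh (l / 2)) ^ 2 := ⟨_, rfl⟩
  have hA0 : 0 ≤ A := by rw [hA]; positivity
  rw [← hA] at h2 ⊢
  by_contra hh
  push Not at hh
  have h4 : A * (z.im * w.im) ≤ A * ((w.im + ‖z - w‖) * w.im) := by gcongr; linarith
  have h5 := mul_lt_mul_of_pos_left hh (lt_trans (by positivity) hh)
  nlinarith [mul_lt_mul_of_pos_left hh hw, mul_nonneg hA0 (mul_pos hw hw).le]

theorem thin (l : ℝ) (c : ℝ) (hc : 0 < c) : ∃ δ > 0, ∀ r, 0 < r → r < δ →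
    (volume (((fun z : ℂ => ‖z‖) '' {z : ℂ | 0 < z.im ∧ ∃ w ∈ K,
      2 * Real.arsinh (‖z - w‖ / (2 * √(z.im * w.im))) < l}) ∩ Ioo (0 : ℝ) r)).toReal < c * r := by
  obtain ⟨B, hB⟩ : ∃ B, B = (2 * Real.sinh (l / 2)) ^ 2 + 1 := ⟨_, rfl⟩
  have hB0 : 0 < B := by rw [hB]; positivity
  obtain ⟨C, hC⟩ : ∃ C, C = 2 * (B + 1) := ⟨_, rfl⟩
  have hC0 : 0 < C := by rw [hC]; positivity
  obtain ⟨N, hN⟩ := exists_pow_lt_of_lt_one (by positivity : 0 < c / (2 * B * C))
    (by norm_num : (1 / 2 : ℝ) < 1)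
  refine ⟨(1 / 2) ^ N / C, by positivity, fun r r0 r1 => ?_⟩
  rw [lt_div_iff₀ hC0] at r1
  rw [lt_div_iff₀ (by positivity)] at hN
  have hsub : ((fun z : ℂ => ‖z‖) '' {z : ℂ | 0 < z.im ∧ ∃ w ∈ K,
      2 * Real.arsinh (‖z - w‖ / (2 * √(z.im * w.im))) < l}) ∩ Ioo (0 : ℝ) r ⊆
      ⋃ m : ℕ, ⋃ w ∈ L (N + m + 1) 0 ((1 / 2) ^ (N + m)),
        closedBall ‖w‖ (B * (r * C) / 4 ^ (N + m + 1)) := by
    rintro _ ⟨⟨z, ⟨hz, w, hw, h⟩, rfl⟩, -, hr⟩
    have hw0 : 0 < w.im := K_sub hw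
    obtain ⟨n, hn⟩ := mem_iUnion.1 hw
    have h1 := near hz hw0 h
    have h2 := near hw0 hz (l := l) (by rwa [norm_sub_rev, mul_comm w.im])
    rw [← hB] at h1 h2
    have h3 := L_far n _ (by positivity) w hn
    have h4 : z.im ≤ ‖z‖ := (le_abs_self _).trans (Complex.abs_im_le_norm z)
    have h5 := norm_sub_norm_le w z
    have h6 : (1 / 2 : ℝ) ^ n ≤ r * C := by
      have : B * z.im ≤ B * r := by gcongr; exact h4.trans hr.le
      have : ‖z‖ < r := hr
      rw [hC]; nlinarith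
    have h7 : N ≤ n :=
      ((pow_lt_pow_iff_right_of_lt_one₀ (by norm_num) (by norm_num)).1 (h6.trans_lt r1)).le
    obtain ⟨m, rfl⟩ := Nat.exists_eq_add_of_le h7
    refine mem_iUnion.2 ⟨m, mem_iUnion₂.2 ⟨w, hn, ?_⟩⟩
    rw [mem_closedBall, Real.dist_eq]
    refine (abs_norm_sub_norm_le z w).trans (h1.trans ?_)
    rw [(L_mem _ _ _ (by positivity) w hn).1, mul_div_assoc]
    gcongr
  have hsum : HasSum (fun m : ℕ => B * (r * C) * (1 / 2) ^ N * (1 / 2) ^ m)
      (B * (r * C) * (1 / 2) ^ N * 2) := hasSum_geometric_two.mul_left _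
  refine lt_of_le_of_lt (ENNReal.toReal_le_of_le_ofReal (b := B * (r * C) * (1 / 2) ^ N * 2)
    (by positivity) ?_) (by nlinarith)
  rw [← hsum.tsum_eq, ENNReal.ofReal_tsum_of_nonneg (fun _ => by positivity) hsum.summable]
  refine (measure_mono hsub).trans ((measure_iUnion_le _).trans (ENNReal.tsum_le_tsum fun m => ?_))
  refine (measure_biUnion_finset_le _ _).trans ?_
  simp only [Real.volume_closedBall, Finset.sum_const, nsmul_eq_mul]
  rw [← ENNReal.ofReal_natCast, ← ENNReal.ofReal_mul (by positivity)]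
  refine ENNReal.ofReal_le_ofReal ?_
  have h1 : ((L (N + m + 1) 0 ((1 / 2) ^ (N + m))).card : ℝ) ≤ 2 ^ (N + m + 1) := by
    exact_mod_cast L_card _ _ _
  refine (mul_le_mul_of_nonneg_right h1 (by positivity)).trans (le_of_eq ?_)
  rw [show (4 : ℝ) = 2 * 2 by norm_num, mul_pow]
  simp only [one_div, inv_pow, pow_add]
  field_simp

end Pool.Agent.H.MP_b0cea1_an
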